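import Pool.Agent.MP_caba0b_al.H43.Iface

/-! The combinatorial core: asymptotics, positivity, rationalisation. -/

namespace Pool.Agent.MP_caba0b_al.H88

open Equiv H43 Filter Topology

/-- a strictly positive real solution of an integer linear system gives an integer one -/
lemma ratl {ι Y : Type} [Fintype ι] (x : ι → ℝ) (hx : ∀ i, 0 < x i) (v : ι → Y → ℤ)
    (h : ∀ y, ∑ i, x i * v i y = 0) :
    ∃ m : ι → ℕ, (∀ i, 0 < m i) ∧ ∀ y, ∑ i, (m i : ℤ) * v i y = 0 := by
  classical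
  let W := Submodule.span ℚ (Set.range x)
  have : FiniteDimensional ℚ W := FiniteDimensional.span_of_finite ℚ (Set.finite_range x)
  let b := Module.finBasis ℚ W
  let X : ι → W := fun i => ⟨x i, Submodule.subset_span ⟨i, rfl⟩⟩
  have hU : IsOpen {t : Fin (Module.finrank ℚ W) → ℝ | ∀ i, 0 < ∑ j, (b.repr (X i) j : ℝ) * t j} := by
    rw [Set.ofPred_forall]
    exact isOpen_iInter_of_finite fun i => isOpen_lt continuous_const (by fun_prop)
  obtain ⟨t, ht⟩ := (DenseRange.piMap fun _ : Fin (Module.finrank ℚ W) =>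
    Rat.denseRange_cast (𝕜 := ℝ)).exists_mem_open hU ⟨fun j => (b j : ℝ), fun i => by
      have := congrArg Subtype.val (b.sum_repr (X i))
      simp only [Submodule.coe_sum, Submodule.coe_smul, Rat.smul_def] at this
      rw [this]
      exact hx i⟩
  let φ : W →ₗ[ℚ] ℚ := b.constr ℚ t
  have h1 : ∀ i, 0 < φ (X i) := fun i => by
    have := ht i
    rw [Module.Basis.constr_apply_fintype]
    simp only [Pi.map_apply] at this
    exact_mod_cast this
  have h2 : ∀ y, ∑ i, φ (X i) * v i y = 0 := fun y => by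
    have : ∑ i, (v i y : ℚ) • X i = 0 := Subtype.ext (by
      simp only [Submodule.coe_sum, Submodule.coe_smul, Rat.smul_def, X]
      simpa [mul_comm] using h y)
    simpa [mul_comm] using congrArg φ this
  obtain ⟨D, hD⟩ := IsLocalization.exist_integer_multiples_of_finite (nonZeroDivisors ℤ)
    fun i => φ (X i)
  choose z hz using hD
  have hD0 : (D : ℤ) ≠ 0 := nonZeroDivisors.coe_ne_zero D
  have hz' : ∀ i, ((D * z i : ℤ) : ℚ) = (D : ℤ) ^ 2 * φ (X i) := fun i => by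
    have := hz i
    simp only [eq_intCast, zsmul_eq_mul] at this
    push_cast
    rw [this]; ring
  have hpos : ∀ i, 0 < (D : ℤ) * z i := fun i => by
    have : (0 : ℚ) < ((D * z i : ℤ) : ℚ) := by
      rw [hz']
      exact mul_pos (by positivity) (h1 i)
    exact_mod_cast this
  refine ⟨fun i => (D * z i).toNat, fun i => Int.lt_toNat.2 (hpos i), fun y => ?_⟩
  have : ((∑ i, (((D * z i).toNat : ℕ) : ℤ) * v i y : ℤ) : ℚ) = 0 := by
    rw [Int.cast_sum, ← mul_zero (((D : ℤ) : ℚ) ^ 2), ← h2 y, Finset.mul_sum]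
    refine Finset.sum_congr rfl fun i _ => ?_
    rw [Int.toNat_of_nonneg (hpos i).le, Int.cast_mul, hz', mul_assoc]
  exact_mod_cast this

/-- natural number valued functions as real valued ones -/
noncomputable def toR {Y : Type} : (Y →₀ ℕ) →+ (Y →₀ ℝ) :=
  Finsupp.mapRange.addMonoidHom (Nat.castAddMonoidHom ℝ)

@[simp] lemma toR_apply {Y : Type} (A : Y →₀ ℕ) (y : Y) : toR A y = A y := rfl

lemma mapDomain_toR {Y Z : Type} (h : Y → Z) (A : Y →₀ ℕ) :
    (toR A).mapDomain h = toR (A.mapDomain h) := by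
  induction A using Finsupp.induction_linear with
  | zero => simp
  | add A B hA hB => simp only [map_add, Finsupp.mapDomain_add, hA, hB]
  | single y k => simp [toR]

lemma phi_inl (S : Side) (f : Wt S.n →₀ ℝ) (μ : GaussianInt) :
    S.Phi f (Sum.inl μ) = f.mapDomain S.push μ := by
  classical
  induction f using Finsupp.induction_linear with
  | zero => simp
  | add A B hA hB => simp only [map_add, Finsupp.mapDomain_add, Finsupp.add_apply, hA, hB]
  | single y k => simp [Side.Phi, Side.phi, Finsupp.single_apply]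

lemma phi_inr (S : Side) (f : Wt S.n →₀ ℝ) (c : ZMod 4) :
    S.Phi f (Sum.inr c) = f.mapDomain S.pb c - (f.mapDomain S.push).sum (fun _ v => v) / 4 := by
  classical
  induction f using Finsupp.induction_linear with
  | zero => simp
  | add A B hA hB =>
    simp only [map_add, Finsupp.mapDomain_add, Finsupp.add_apply, hA, hB]
    rw [Finsupp.sum_add_index' (fun _ => rfl) fun _ _ _ => rfl]
    ring
  | single y k =>
    simp only [Side.Phi, Side.phi, Finsupp.linearCombination_single, Finsupp.mapDomain_single,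
      Finsupp.smul_apply, Finsupp.add_apply, Finsupp.finsetSum_apply, Finsupp.single_apply,
      Sum.inr.injEq, Finset.sum_ite_eq', Finset.mem_univ, if_true, reduceCtorEq, if_false]
    rw [Finsupp.sum_single_index rfl]
    split_ifs <;> simp <;> ring

lemma split_phi {S S' : Side} {f : Wt S.n →₀ ℝ} {f' : Wt S'.n →₀ ℝ} (h : S.Phi f = S'.Phi f') :
    f.mapDomain S.push = f'.mapDomain S'.push ∧ f.mapDomain S.pb = f'.mapDomain S'.pb := by
  have h1 : f.mapDomain S.push = f'.mapDomain S'.push :=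
    Finsupp.ext fun μ => by rw [← phi_inl, ← phi_inl, h]
  refine ⟨h1, Finsupp.ext fun c => ?_⟩
  have := phi_inr S f c
  rw [h, phi_inr, h1] at this
  linarith

variable {n : ℕ}

lemma sym_sum {ι : Type} (F : Finset ι) (α : ι → ℝ) (s : ι → Wt n →₀ ℝ)
    (h : ∀ i ∈ F, H43.Sym (s i)) : H43.Sym (∑ i ∈ F, α i • s i) := fun π ν => by
  simp only [Finsupp.finsetSum_apply, Finsupp.smul_apply]
  exact Finset.sum_congr rfl fun i hi => by rw [h i hi π ν]

lemma std_apply (ν : Wt n) : std n ν = ∑ i, if Pi.single i 1 = ν then 1 else 0 := by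
  simp [std, Finsupp.finsetSum_apply, Finsupp.single_apply]

lemma sym_std : H43.Sym (toR (std n)) := fun π ν => by
  rw [toR_apply, toR_apply, std_apply, std_apply, ← Equiv.sum_comp π
    fun i => if Pi.single i 1 = ν then 1 else 0]
  congr 1
  refine Finset.sum_congr rfl fun i _ => if_congr ?_ rfl rfl
  have : (Pi.single i 1 : Wt n) = Pi.single (π i) 1 ∘ π := by
    funext j
    simp [Pi.single_apply]
  rw [this]
  exact π.surjective.injective_comp_right.eq_iff

lemma nsq_std {ν : Wt n} (h : toR (std n) ν ≠ 0) : nsq ν = 1 := by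
  rw [toR_apply, std_apply, Nat.cast_ne_zero] at h
  obtain ⟨i, -, hi⟩ := Finset.exists_ne_zero_of_sum_ne_zero h
  have : Pi.single i 1 = ν := by simpa using hi
  subst this
  simp [nsq, Pi.single_apply]

section side

variable {S : Side} {κ R : ℝ} {P : Finset GaussianInt} {Λ F : Finset (Wt S.n)}
  {s : Wt S.n → Wt S.n →₀ ℝ}

lemma expand (hA : SymA S.n) (hB : SymB S.n) (hs : ∀ lam, Monotone lam → IsS lam (s lam))
    (ha : Adapt S κ R P Λ) (hF : ∀ lam, lam ∈ F ↔ lam ∈ Λ ∧ Monotone lam) {y : Wt S.n →₀ ℝ}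
    (hy : H43.Sym y) (hsup : ∀ ν, y ν ≠ 0 → ν ∈ Λ) :
    y = ∑ lam ∈ F, adel y (lam + del S.n) • s lam := by
  refine hA.expand s hs y hy F (fun lam h => ((hF lam).1 h).2) fun lam hm h => ?_
  obtain ⟨π, -, hπ⟩ := Finset.exists_ne_zero_of_sum_ne_zero h
  exact (hF lam).2 ⟨ha.dom _ (hsup _ (right_ne_zero_of_mul hπ)) _ (hB.dom lam π hm).1, hm⟩

lemma adel_le (hB : SymB S.n) {τ : ℝ} (hτ : 0 ≤ τ) (y : Wt S.n →₀ ℝ) {lam : Wt S.n}
    (hm : Monotone lam) : adel y (lam + del S.n) ≤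
      S.n.factorial * S.cost τ y * Real.exp (-(τ * (S.N * nsq lam))) := by
  have key : ∀ π : Perm (Fin S.n), ((Perm.sign π : ℤ) : ℝ) * y (lam + del S.n - del S.n ∘ π) ≤
      S.cost τ y * Real.exp (-(τ * (S.N * nsq lam))) := fun π => by
    have h1 := abs_mul_le_wn (w := fun ν => Real.exp (τ * (S.N * nsq ν)))
      (fun _ => (Real.exp_pos _).le) y (lam + del S.n - del S.n ∘ π)
    have h2 : Real.exp (τ * (S.N * nsq lam)) ≤
        Real.exp (τ * (S.N * nsq (lam + del S.n - del S.n ∘ π))) := by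
      have := (hB.dom lam π hm).2
      gcongr
    rw [Real.exp_neg, ← div_eq_mul_inv, le_div_iff₀ (Real.exp_pos _)]
    refine le_trans (mul_le_mul ?_ h2 (Real.exp_pos _).le (abs_nonneg _)) h1
    refine (le_abs_self _).trans_eq ?_
    rcases Int.units_eq_one_or (Perm.sign π) with h | h <;> simp [h]
  refine (Finset.sum_le_card_nsmul _ _ _ fun π _ => key π).trans_eq ?_
  simp [Fintype.card_perm, mul_assoc]

lemma pos_side (hA : SymA S.n) (hB : SymB S.n) {k : Wt S.n → ℕ} {χ : Wt S.n → Wt S.n →₀ ℕ}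
    (hk : ∀ lam, Monotone lam → 0 < k lam)
    (hs : ∀ lam, Monotone lam → IsS lam ((k lam : ℝ)⁻¹ • toR (χ lam)))
    (ha : Adapt S κ R P Λ) (hF : ∀ lam, lam ∈ F ↔ lam ∈ Λ ∧ Monotone lam) {τ B : ℝ} (hτ : 0 ≤ τ)
    (hB0 : 0 < B) {α : Wt S.n → ℝ}
    (hα : ∀ lam ∈ F, Real.exp (-(τ * (S.N * nsq lam))) ≤ B * α lam) {y : Wt S.n →₀ ℝ}
    (hy : H43.Sym y) (hsup : y.support ⊆ Λ) (hc : S.cost τ y * (S.n.factorial * B) < 1)
    (hN : (S.N : ℝ) ≤ (κ * R) ^ 2) :
    ∃ x : Option F → ℝ, (∀ i, 0 < x i) ∧ ∑ lam ∈ F, α lam • (k lam : ℝ)⁻¹ • toR (χ lam) - y =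
      ∑ i, x i • toR (i.elim (std S.n) fun lam => χ lam) := by
  have h1 := expand hA hB hs ha hF hy fun ν h => hsup (Finsupp.mem_support_iff.2 h)
  have h2 := expand hA hB hs ha hF sym_std fun ν h => ha.small ν (by rwa [nsq_std h, mul_one])
  have hβ : ∀ lam ∈ F, 0 < α lam - adel y (lam + del S.n) := fun lam hl => by
    have e1 := adel_le hB hτ y ((hF lam).1 hl).2
    have e2 := hα lam hl
    have e3 := Real.exp_pos (-(τ * (S.N * nsq lam)))
    refine sub_pos.2 (lt_of_mul_lt_mul_left (a := B) ?_ hB0.le)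
    nlinarith [mul_le_mul_of_nonneg_left e1 hB0.le, mul_lt_mul_of_pos_right hc e3]
  have hev : ∀ᶠ ε in 𝓝[>] (0 : ℝ), ∀ lam ∈ F,
      0 < α lam - adel y (lam + del S.n) - ε * adel (toR (std S.n)) (lam + del S.n) := by
    refine (eventually_all_finset F).2 fun lam hl => nhdsWithin_le_nhds ?_
    refine ContinuousAt.eventually_lt continuousAt_const (by fun_prop) ?_
    simpa using hβ lam hl
  obtain ⟨ε, hε, hε0⟩ := (hev.and self_mem_nhdsWithin).exists
  refine ⟨fun i => i.elim ε fun lam => (α lam - adel y (lam + del S.n) -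
    ε * adel (toR (std S.n)) (lam + del S.n)) * (k lam : ℝ)⁻¹, fun i => ?_, ?_⟩
  · cases i with
    | none => exact hε0
    | some lam =>
      have := hk lam ((hF lam).1 lam.2).2
      exact mul_pos (hε lam lam.2) (by positivity)
  · rw [Fintype.sum_option]
    simp only [Option.elim]
    rw [Finset.sum_coe_sort F fun lam => ((α lam - adel y (lam + del S.n) -
      ε * adel (toR (std S.n)) (lam + del S.n)) * (k lam : ℝ)⁻¹) • toR (χ lam)]
    nth_rewrite 1 [h1, h2]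
    rw [Finset.smul_sum, ← Finset.sum_sub_distrib, ← Finset.sum_add_distrib]
    refine Finset.sum_congr rfl fun lam _ => ?_
    module

lemma mem_P (hA : SymA S.n) (hs : ∀ lam, Monotone lam → IsS lam (s lam))
    (ha : Adapt S κ R P Λ) (hF : ∀ lam, lam ∈ F ↔ lam ∈ Λ ∧ Monotone lam) (α : Wt S.n → ℝ)
    {μ : GaussianInt} (h : S.Phi (∑ lam ∈ F, α lam • s lam) (Sum.inl μ) ≠ 0) : μ ∈ P := by
  classical
  rw [phi_inl] at h
  obtain ⟨ν, hν, rfl⟩ := Finset.mem_image.1
    (Finsupp.mapDomain_support (Finsupp.mem_support_iff.2 h))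
  rw [Finsupp.mem_support_iff, Finsupp.finsetSum_apply] at hν
  obtain ⟨lam, hl, h1⟩ := Finset.exists_ne_zero_of_sum_ne_zero hν
  exact ha.pushP ν (ha.dom lam ((hF lam).1 hl).1 ν
    (hA.supp lam _ (hs lam ((hF lam).1 hl).2) ν (right_ne_zero_of_mul h1)))

end side

lemma exists_schur {Q : (Wt n →₀ ℕ) → Prop} (h : Cls n Q) :
    ∃ (k : Wt n → ℕ) (χ : Wt n → Wt n →₀ ℕ), (∀ lam, Monotone lam → 0 < k lam) ∧
      (∀ lam, Monotone lam → Q (χ lam)) ∧
      ∀ lam, Monotone lam → IsS lam ((k lam : ℝ)⁻¹ • toR (χ lam)) := by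
  choose! k χ h1 h2 h3 using h.schur
  refine ⟨k, χ, h1, h2, fun lam hm ν => ?_⟩
  have hk : (k lam : ℝ) ≠ 0 := by exact_mod_cast (h1 lam hm).ne'
  rw [← inv_mul_cancel_left₀ hk (alt _ _), ← h3 lam hm ν, adel, adel, Finset.mul_sum]
  exact Finset.sum_congr rfl fun π _ => by simp; ring

lemma cls_sum {Q : (Wt n →₀ ℕ) → Prop} (h : Cls n Q) {ι : Type} [Fintype ι] (m : ι → ℕ)
    (χ : ι → Wt n →₀ ℕ) (hχ : ∀ i, Q (χ i)) : Q (∑ i, m i • χ i) := by
  refine Finset.sum_induction _ Q h.add h.zero fun i _ => ?_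
  induction m i with
  | zero => simpa using h.zero
  | succ j ih => rw [succ_nsmul]; exact h.add _ _ ih (hχ i)

lemma tendsto_r {g r₀ : ℝ} (hg : 1 < g) (hr : 1 ≤ r₀) :
    Tendsto (fun k : ℕ => r₀ * g ^ k) atTop atTop :=
  (tendsto_pow_atTop_atTop_of_one_lt hg).const_mul_atTop (by linarith)

lemma tendsto_err {g r₀ c : ℝ} (hg : 1 < g) (hr : 1 ≤ r₀) (hc : 0 < c) (C : ℝ) (e : ℕ) :
    Tendsto (fun k : ℕ => Real.exp (C * ((k : ℝ) + 1) ^ 2) * (r₀ * g ^ k) ^ e *
      Real.exp (-(c * (r₀ * g ^ k)))) atTop (𝓝 0) := by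
  have h1 := ((Real.tendsto_pow_mul_exp_neg_atTop_nhds_zero e).comp
    ((tendsto_r hg hr).const_mul_atTop (half_pos hc))).const_mul ((c / 2)⁻¹ ^ e)
  rw [mul_zero] at h1
  have h2 := (((tendsto_pow_const_div_const_pow_of_one_lt 2 hg).comp
    (tendsto_add_atTop_nat 1)).const_mul (C * g)).eventually
      (gt_mem_nhds (show C * g * 0 < c / 2 * r₀ by rw [mul_zero]; positivity))
  refine squeeze_zero' (Eventually.of_forall fun k => by positivity) ?_ h1
  filter_upwards [h2] with k hk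
  have hgk : 0 < g ^ k := by positivity
  have h3 : C * ((k : ℝ) + 1) ^ 2 ≤ c / 2 * (r₀ * g ^ k) := by
    simp only [Function.comp, Nat.cast_add, Nat.cast_one] at hk
    rw [pow_succ g, ← mul_div_assoc, div_lt_iff₀ (by positivity)] at hk
    refine le_of_mul_le_mul_right ?_ (show 0 < g by linarith)
    linarith
  simp only [Function.comp]
  rw [← mul_assoc (_ ^ e), ← mul_pow, inv_mul_cancel_left₀ (half_pos hc).ne',
    mul_comm (Real.exp _), mul_assoc, ← Real.exp_add]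
  gcongr
  linarith

lemma coords {Y Z : Type} {ι : Type} [Fintype ι] (h : Y → Z) (x : ι → ℝ) (G : ι → Y →₀ ℕ) (z : Z) :
    (∑ i, x i • toR (G i)).mapDomain h z = ∑ i, x i * (G i).mapDomain h z := by
  rw [Finsupp.mapDomain_finsetSum, Finsupp.finsetSum_apply]
  exact Finset.sum_congr rfl fun i _ => by
    rw [Finsupp.mapDomain_smul, mapDomain_toR]; rfl

lemma coords' {Y Z : Type} {ι : Type} [Fintype ι] (h : Y → Z) (x : ι → ℕ) (G : ι → Y →₀ ℕ) (z : Z) :
    (∑ i, x i • G i).mapDomain h z = ∑ i, x i * (G i).mapDomain h z := by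
  rw [Finsupp.mapDomain_finsetSum, Finsupp.finsetSum_apply]
  exact Finset.sum_congr rfl fun i _ => by rw [Finsupp.mapDomain_smul]; rfl

lemma integral_solution {S S' : Side} {ι ι' : Type} [Fintype ι] [Fintype ι'] {x : ι → ℝ}
    {x' : ι' → ℝ} (hx : ∀ i, 0 < x i) (hx' : ∀ i, 0 < x' i) (G : ι → Wt S.n →₀ ℕ)
    (G' : ι' → Wt S'.n →₀ ℕ) (h : S.Phi (∑ i, x i • toR (G i)) = S'.Phi (∑ i, x' i • toR (G' i))) :
    ∃ (m : ι → ℕ) (m' : ι' → ℕ), (∀ i, 0 < m i) ∧ (∀ i, 0 < m' i) ∧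
      (∑ i, m i • G i).mapDomain S.push = (∑ i, m' i • G' i).mapDomain S'.push ∧
      (∑ i, m i • G i).mapDomain S.pb = (∑ i, m' i • G' i).mapDomain S'.pb := by
  obtain ⟨h1, h2⟩ := split_phi h
  obtain ⟨m, hm, hv⟩ := ratl (Y := GaussianInt ⊕ ZMod 4) (Sum.elim x x') (Sum.rec hx hx')
    (Sum.elim (fun i => Sum.elim (fun μ => (G i).mapDomain S.push μ) fun c => (G i).mapDomain S.pb c)
      fun i => Sum.elim (fun μ => -(G' i).mapDomain S'.push μ) fun c => -(G' i).mapDomain S'.pb c)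
    fun y => by
      cases y with
      | inl μ =>
        have := DFunLike.congr_fun h1 μ
        rw [coords, coords] at this
        simp [this]
      | inr c =>
        have := DFunLike.congr_fun h2 c
        rw [coords, coords] at this
        simp [this]
  refine ⟨fun i => m (Sum.inl i), fun i => m (Sum.inr i), fun _ => hm _, fun _ => hm _,
    Finsupp.ext fun μ => ?_, Finsupp.ext fun c => ?_⟩
  · have := hv (Sum.inl μ)
    simp only [Fintype.sum_sum_type, Sum.elim_inl, Sum.elim_inr, mul_neg, Finset.sum_neg_distrib,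
      add_neg_eq_zero] at this
    rw [coords', coords']
    exact_mod_cast this
  · have := hv (Sum.inr c)
    simp only [Fintype.sum_sum_type, Sum.elim_inl, Sum.elim_inr, mul_neg, Finset.sum_neg_distrib,
      add_neg_eq_zero] at this
    rw [coords', coords']
    exact_mod_cast this

theorem core (hA : ∀ n, SymA n) (hB : ∀ n, SymB n) (hS : SideStmt) (hI : InvStmt) : CoreStmt := by
  classical
  intro S S' Q Q' hQ hQ'
  obtain ⟨k, χ, hk, hχ, hs⟩ := exists_schur hQ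
  obtain ⟨k', χ', hk', hχ', hs'⟩ := exists_schur hQ'
  obtain ⟨κ, C, g, r₀, hκ, hg, hr, hI⟩ := hI S S'
  obtain ⟨c₁, C₁, e₁, hc₁, hC₁, h₁⟩ := hS S κ hκ _ hs
  obtain ⟨c₂, C₂, e₂, hc₂, hC₂, h₂⟩ := hS S' κ hκ _ hs'
  have hsmall : ∀ (D : ℝ) (e : ℕ), ∀ᶠ j : ℕ in atTop, Real.exp (C * ((j : ℝ) + 1) ^ 2) *
      (C₁ * (r₀ * g ^ j) ^ e₁ * Real.exp (-(c₁ * (r₀ * g ^ j))) +
        C₂ * (r₀ * g ^ j) ^ e₂ * Real.exp (-(c₂ * (r₀ * g ^ j)))) * (D * (r₀ * g ^ j) ^ e) < 1 := by
    intro D e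
    have := ((tendsto_err hg hr hc₁ C (e₁ + e)).const_mul (C₁ * D)).add
      ((tendsto_err hg hr hc₂ C (e₂ + e)).const_mul (C₂ * D))
    filter_upwards [this.eventually (gt_mem_nhds (by simp : C₁ * D * 0 + C₂ * D * 0 < 1))] with j hj
    exact lt_of_eq_of_lt (by ring) hj
  have hbig : Tendsto (fun j : ℕ => (κ * (r₀ * g ^ j) ^ 2) ^ 2) atTop atTop :=
    (tendsto_pow_atTop two_ne_zero).comp
      (((tendsto_pow_atTop two_ne_zero).comp (tendsto_r hg hr)).const_mul_atTop hκ)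
  obtain ⟨j, ⟨hj1, hj2⟩, hj3, hj4⟩ := (((hsmall (S.n.factorial * C₁) e₁).and
    (hsmall (S'.n.factorial * C₂) e₂)).and
    ((hbig.eventually_ge_atTop S.N).and (hbig.eventually_ge_atTop S'.N))).exists
  obtain ⟨P, Λ, Λ', ha, ha', hI⟩ := hI j
  set r := r₀ * g ^ j
  have hr1 : 1 ≤ r := one_le_mul_of_one_le_of_one_le hr (one_le_pow₀ hg.le)
  have hτ : 0 ≤ r⁻¹ := by positivity
  have hF : ∀ lam, lam ∈ Λ.filter Monotone ↔ lam ∈ Λ ∧ Monotone lam := fun _ => Finset.mem_filter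
  have hF' : ∀ lam, lam ∈ Λ'.filter Monotone ↔ lam ∈ Λ' ∧ Monotone lam := fun _ => Finset.mem_filter
  obtain ⟨α, hα, e1⟩ := h₁ r P Λ _ hr1 ha hF
  obtain ⟨α', hα', e2⟩ := h₂ r P Λ' _ hr1 ha' hF'
  obtain ⟨y, y', hy, hy', hsup, hsup', hphi, hcost⟩ := hI r⁻¹ hτ (inv_le_one_of_one_le₀ hr1) _ _
    (sym_sum _ α _ fun lam hl => (hA _).sym lam _ (hs lam ((hF lam).1 hl).2))
    (sym_sum _ α' _ fun lam hl => (hA _).sym lam _ (hs' lam ((hF' lam).1 hl).2))
    fun μ hμ => by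
      by_contra hn
      exact hμ (by rw [Finsupp.sub_apply, not_not.1 (mt (mem_P (hA _) hs ha hF α) hn),
        not_not.1 (mt (mem_P (hA _) hs' ha' hF' α') hn), sub_self])
  have hw : ∀ z : GaussianInt ⊕ ZMod 4,
      0 ≤ Sum.elim (fun μ : GaussianInt => Real.exp (r⁻¹ * (μ.norm : ℝ))) (fun _ => 1) z :=
    Sum.rec (fun _ => (Real.exp_pos _).le) fun _ => zero_le_one
  have hD := (wn_sub_le hw _ _).trans (add_le_add e1 e2)
  rw [sub_sub_sub_cancel_right] at hD
  replace hcost := hcost.trans (mul_le_mul_of_nonneg_left hD (Real.exp_pos _).le)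
  have c1 : 0 ≤ S.cost r⁻¹ y := wn_nonneg (fun _ => (Real.exp_pos _).le) _
  have c2 : 0 ≤ S'.cost r⁻¹ y' := wn_nonneg (fun _ => (Real.exp_pos _).le) _
  obtain ⟨x, hx, hxe⟩ := pos_side (hA _) (hB _) hk hs ha hF hτ (by positivity) hα hy hsup
    (lt_of_le_of_lt (by rw [← mul_assoc _ C₁]; gcongr; linarith) hj1) hj3
  obtain ⟨x', hx', hxe'⟩ := pos_side (hA _) (hB _) hk' hs' ha' hF' hτ (by positivity) hα' hy' hsup'
    (lt_of_le_of_lt (by rw [← mul_assoc _ C₂]; gcongr; linarith) hj2) hj4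
  obtain ⟨m, m', hm, hm', h1, h2⟩ := integral_solution hx hx' _ _ (by
    rw [← hxe, ← hxe', map_sub, map_sub, sub_eq_sub_iff_sub_eq_sub, hphi])
  rw [Fintype.sum_option, Fintype.sum_option] at h1 h2
  exact ⟨m none, m' none, _, _, hm _, hm' _,
    cls_sum hQ _ _ fun lam => hχ _ ((hF _).1 lam.2).2,
    cls_sum hQ' _ _ fun lam => hχ' _ ((hF' _).1 lam.2).2, h1, h2⟩

end Pool.Agent.MP_caba0b_al.H88
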